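import Pool.Agent.H17B.Contra
import Pool.Agent.H17.EntireRing

/-! # Borel's lemma -/

open Filter Complex ValueDistribution Matrix
open scoped Topology Real

noncomputable section

namespace Pool.Agent.H17B

/-- Numerical contradiction. -/
lemma exists_lt_of_log_bound (A B K : ℝ) : ∃ t₀ : ℝ, 1 ≤ t₀ ∧ ∀ t, t₀ ≤ t →
    A + B * Real.log (K * t ^ 5) < t := by
  have h1 : Tendsto (fun t : ℝ => (A + B * Real.log (K * t ^ 5)) / t) atTop (𝓝 0) := by
    have hl : Tendsto (fun t : ℝ => Real.log t / t) atTop (𝓝 0) := by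
      have := Real.isLittleO_log_id_atTop.tendsto_div_nhds_zero
      simpa using this
    have hi : Tendsto (fun t : ℝ => t⁻¹) atTop (𝓝 0) := tendsto_inv_atTop_zero
    by_cases hK : K = 0
    · subst hK
      have : (fun t : ℝ => (A + B * Real.log (0 * t ^ 5)) / t) = fun t => A * t⁻¹ := by
        funext t
        simp [div_eq_mul_inv]
      rw [this]
      simpa using hi.const_mul A
    · have h2 : Tendsto (fun t : ℝ => (A + B * Real.log K) * t⁻¹ + (5 * B) * (Real.log t / t))
          atTop (𝓝 0) := by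
        have := (hi.const_mul (A + B * Real.log K)).add (hl.const_mul (5 * B))
        simpa using this
      refine h2.congr' ?_
      filter_upwards [eventually_gt_atTop 0] with t ht
      rw [Real.log_mul hK (by positivity), Real.log_pow]
      field_simp
      push_cast
      ring
  have h3 := (h1.eventually (gt_mem_nhds one_pos)).and (eventually_ge_atTop (1 : ℝ))
  obtain ⟨t₀, ht₀⟩ := eventually_atTop.1 h3
  refine ⟨max t₀ 1, le_max_right _ _, fun t ht => ?_⟩
  obtain ⟨h4, h5⟩ := ht₀ t (le_trans (le_max_left _ _) ht)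
  rw [div_lt_one (by linarith)] at h4
  exact h4

/-- Numerical contradiction. -/
lemma final_contradiction {T c₀ c C r A B : ℝ} (hc₀0 : 0 ≤ c₀) (hc : 0 < c) (hB : 0 ≤ B)
    (hT : 1 ≤ T) (hr : 1 ≤ r) (hlow : c * r - C ≤ T)
    (h1 : T ≤ A + B * Real.log (8 * (r + 1) * T ^ 2 * (4 * T + c₀)))
    (h3 : A + B * Real.log (8 * ((1 / c + |C| / c + 1) + 1) * (4 + c₀) * T ^ 5) < T) : False := by
  set L : ℝ := 1 / c + |C| / c + 1 with hL
  set K : ℝ := 8 * (L + 1) * (4 + c₀) with hK
  have hTr0 : 0 < T := by linarith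
  have hL0 : 0 < L := by rw [hL]; positivity
  have h4 : r + 1 ≤ (L + 1) * T := by
    have h6 : r ≤ (T + C) / c := by
      rw [le_div_iff₀ hc]; linarith
    have h7 : (T + C) / c ≤ T / c + |C| / c * T := by
      rw [add_div]
      have h9 : C / c ≤ |C| / c := by gcongr; exact le_abs_self C
      have h8 : |C| / c ≤ |C| / c * T := le_mul_of_one_le_right (by positivity) hT
      linarith
    have h8 : (L + 1) * T = T / c + |C| / c * T + 2 * T := by rw [hL]; ring
    linarith
  have h5 : 8 * (r + 1) * T ^ 2 * (4 * T + c₀) ≤ K * T ^ 5 := by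
    have h6 : 4 * T + c₀ ≤ (4 + c₀) * T := by
      have := le_mul_of_one_le_right hc₀0 hT
      linarith
    have h7 : K * T ^ 5 = 8 * ((L + 1) * T) * T ^ 2 * ((4 + c₀) * T) * T := by
      rw [hK]; ring
    calc 8 * (r + 1) * T ^ 2 * (4 * T + c₀)
        ≤ 8 * ((L + 1) * T) * T ^ 2 * ((4 + c₀) * T) := by gcongr
      _ ≤ 8 * ((L + 1) * T) * T ^ 2 * ((4 + c₀) * T) * T :=
          le_mul_of_one_le_right (by positivity) hT
      _ = K * T ^ 5 := h7.symm
  have h6 : Real.log (8 * (r + 1) * T ^ 2 * (4 * T + c₀)) ≤ Real.log (K * T ^ 5) :=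
    Real.log_le_log (by positivity) h5
  have h7 : B * Real.log (8 * (r + 1) * T ^ 2 * (4 * T + c₀)) ≤ B * Real.log (K * T ^ 5) :=
    mul_le_mul_of_nonneg_left h6 hB
  linarith

/-- A relation `∑ b_j e^{h_j} = 1` with linearly independent non-constant `e^{h_j}` and nonzero
coefficients is impossible. -/
theorem borel_core {m : ℕ} (h : Fin m → ℂ → ℂ) (hd : ∀ j, Differentiable ℂ (h j))
    (hnc : ∀ j, ∃ w, deriv (h j) w ≠ 0)
    (hli : LinearIndependent ℂ fun j => fun z => cexp (h j z)) (b : Fin m → ℂ)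
    (hb : ∀ j, b j ≠ 0) (hrel : ∀ z, ∑ j, b j * cexp (h j z) = 1) : False := by
  classical
  -- `m ≠ 0`
  have hm : 0 < m := by
    rcases Nat.eq_zero_or_pos m with rfl | h0
    · exfalso
      have := hrel 0
      simp at this
    · exact h0
  have : NeZero m := ⟨hm.ne'⟩
  -- the Wronskian
  obtain ⟨z₀, hz₀⟩ := exists_wronskian_ne_zero (fun j z => cexp (h j z)) (fun j => (hd j).cexp) hli
  have hDne : ∃ z, (bMat h z).det ≠ 0 := by
    refine ⟨z₀, ?_⟩
    rw [det_bMat]
    exact mul_ne_zero (Finset.prod_ne_zero_iff.2 fun j _ => Complex.exp_ne_zero _) hz₀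
  have hDd := differentiable_det_bMat hd
  obtain ⟨CD, hCD⟩ := exists_le_circleAverage_log_norm hDd hDne
  -- the characteristic function
  set T : ℝ → ℝ := fun r => ∑ j, mT (h j) r with hT
  have hTmono : MonotoneOn T (Set.Ici 1) := by
    intro r hr s hs hrs
    exact Finset.sum_le_sum fun j _ => mT_mono (hd j) hr hs hrs
  have hTj : ∀ j r, mT (h j) r ≤ T r := fun j r =>
    Finset.single_le_sum (f := fun j => mT (h j) r) (fun i _ => mT_nonneg _ _) (Finset.mem_univ j)
  obtain ⟨c, C, hc, hlow⟩ := exists_growth_lower (hd 0) (hnc 0)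
  have hTlow : ∀ R, 1 ≤ R → c * R - C ≤ T R := fun R hR => (hlow R hR).trans (hTj 0 R)
  have hTtop : Tendsto T atTop atTop := by
    have h1 : Tendsto (fun R : ℝ => c * R - C) atTop atTop :=
      tendsto_atTop_add_const_right _ _ (tendsto_id.const_mul_atTop hc)
    apply tendsto_atTop_mono' _ _ h1
    filter_upwards [eventually_ge_atTop (1 : ℝ)] with R hR using hTlow R hR
  -- constants
  set c₀ : ℝ := ∑ j, |(h j 0).re| with hc₀
  have hc₀0 : 0 ≤ c₀ := Finset.sum_nonneg fun j _ => abs_nonneg _
  have hcj : ∀ j, |(h j 0).re| ≤ c₀ := fun j =>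
    Finset.single_le_sum (f := fun j => |(h j 0).re|) (fun i _ => abs_nonneg _) (Finset.mem_univ j)
  set bb : ℝ := 1 + ∑ j, ‖b j‖⁻¹ with hbb
  have hbb1 : 1 ≤ bb := by
    have : 0 ≤ ∑ j, ‖b j‖⁻¹ := Finset.sum_nonneg fun j _ => by positivity
    linarith
  have hbj : ∀ j, ‖b j‖⁻¹ ≤ bb := fun j => by
    have := Finset.single_le_sum (f := fun j => ‖b j‖⁻¹) (fun i _ => by positivity)
      (Finset.mem_univ j)
    linarith
  set F : ℝ := m.factorial * Real.exp 1 with hF
  have hF1 : 1 ≤ F := by
    have h1 : (1 : ℝ) ≤ m.factorial := by exact_mod_cast Nat.factorial_pos m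
    have h2 : (1 : ℝ) ≤ Real.exp 1 := Real.one_le_exp zero_le_one
    nlinarith
  set Q : ℝ := bb * (m.factorial * F ^ m) with hQ
  -- the main estimate at a good radius
  have key : ∀ r, 1 ≤ r → 1 ≤ T r → T (r + 1 / T r) ≤ 2 * T r →
      T r ≤ m * (2 * (Real.log Q + (m * m : ℕ) *
        Real.log (8 * (r + 1) * T r ^ 2 * (4 * T r + c₀))) - CD) := by
    intro r hr hTr hTR
    set R : ℝ := r + 1 / T r with hR
    have hTr0 : 0 < T r := by linarith
    have hRr : 0 < R - r := by rw [hR]; ring_nf; positivity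
    have hR1 : R ≤ r + 1 := by
      rw [hR]
      have : 1 / T r ≤ 1 := by rw [div_le_one hTr0]; exact hTr
      linarith
    set M : ℝ := 8 * (r + 1) * T r ^ 2 * (4 * T r + c₀) with hM
    have hM2 : 2 * T r ≤ M := by
      have h1 : (1 : ℝ) ≤ T r ^ 2 := by nlinarith
      have h2 : 4 * T r ≤ 4 * T r + c₀ := by linarith
      have h3 : (1 : ℝ) ≤ r + 1 := by linarith
      calc 2 * T r ≤ 8 * 1 * 1 * (4 * T r) := by linarith
        _ ≤ M := by rw [hM]; gcongr
    have hM1 : 1 ≤ M := by linarith
    have hM0 : 0 < M := by linarith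
    -- bound of the logarithmic derivatives
    have hderiv : ∀ j ζ, ‖ζ‖ ≤ r + (R - r) / 2 → ‖deriv (h j) ζ‖ ≤ M := by
      intro j ζ hζ
      have hζR : ‖ζ‖ < R := by linarith
      have h1 := norm_deriv_le (hd j) hζR
      have h2 := average_abs_le (hd j) R
      have h3 : Real.circleAverage (fun z => |(h j z).re|) 0 R ≤ 4 * T r + c₀ := by
        have := hTj j R
        have := hcj j
        linarith
      have h4 : (R - r) / 2 ≤ R - ‖ζ‖ := by linarith
      have h5 : 2 * R / (R - ‖ζ‖) ^ 2 ≤ 8 * (r + 1) * T r ^ 2 := by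
        have h6 : ((R - r) / 2) ^ 2 ≤ (R - ‖ζ‖) ^ 2 := by gcongr
        have h7 : (R - r) / 2 = 1 / (2 * T r) := by
          rw [hR]; field_simp; ring
        rw [div_le_iff₀ (by nlinarith [sq_nonneg (R - ‖ζ‖)])]
        have h8 : 8 * (r + 1) * T r ^ 2 * ((R - r) / 2) ^ 2 = 2 * (r + 1) := by
          rw [h7]; field_simp; ring
        calc 2 * R ≤ 2 * (r + 1) := by linarith
          _ = 8 * (r + 1) * T r ^ 2 * ((R - r) / 2) ^ 2 := h8.symm
          _ ≤ 8 * (r + 1) * T r ^ 2 * (R - ‖ζ‖) ^ 2 := by gcongr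
      have h9 : 0 ≤ Real.circleAverage (fun z => |(h j z).re|) 0 R :=
        Real.circleAverage_nonneg_of_nonneg fun _ _ => abs_nonneg _
      calc ‖deriv (h j) ζ‖ ≤ 2 * R / (R - ‖ζ‖) ^ 2 *
            Real.circleAverage (fun z => |(h j z).re|) 0 R := h1
        _ ≤ 8 * (r + 1) * T r ^ 2 * (4 * T r + c₀) := by gcongr
        _ = M := rfl
    have hnear : ∀ z, ‖z‖ = r → ∀ j ζ, ‖ζ - z‖ ≤ 1 / M → ‖deriv (h j) ζ‖ ≤ M := by
      intro z hz j ζ hζ
      apply hderiv
      have h1 : ‖ζ‖ ≤ ‖ζ - z‖ + ‖z‖ := by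
        have := norm_add_le (ζ - z) z
        simpa using this
      have h2 : 1 / M ≤ (R - r) / 2 := by
        have : (R - r) / 2 = 1 / (2 * T r) := by rw [hR]; field_simp; ring
        rw [this]
        exact one_div_le_one_div_of_le (by linarith) hM2
      linarith
    set β₀ : ℝ := F * M ^ m with hβ₀
    have hMm : 1 ≤ M ^ m := one_le_pow₀ hM1
    have hβ₀1 : 1 ≤ β₀ := by rw [hβ₀]; nlinarith
    set β : ℝ := bb * (m.factorial * β₀ ^ m) with hβ
    have hfac : (1 : ℝ) ≤ m.factorial := by exact_mod_cast Nat.factorial_pos m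
    have hβ₀m : 1 ≤ β₀ ^ m := one_le_pow₀ hβ₀1
    have hprod1 : 1 ≤ m.factorial * β₀ ^ m := by nlinarith
    have hβ1 : 1 ≤ β := by rw [hβ]; nlinarith
    have hbound : ∀ z, ‖z‖ = r → ‖(bMat h z).det‖ ≤ m.factorial * β₀ ^ m := by
      intro z hz
      exact norm_det_le fun i j => norm_bMat_le hd hM1 (hnear z hz) i j
    have hprox : ∀ j, mT (h j) r ≤ 2 * Real.log β - CD := by
      intro j
      rw [mT_eq_proximity]
      refine mT_le_of_bound (hd j).cexp hDd hDne (hCD r hr) hr hβ1 ?_ ?_
      · intro z hz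
        refine (hbound z hz).trans ?_
        rw [hβ]
        nlinarith
      · intro z hz
        have h1 := exp_mul_det hd hrel z j
        have h2 : ‖((bMat h z).updateCol j fun i => if (i : ℕ) = 0 then 1 else 0).det‖ ≤
            m.factorial * β₀ ^ m := by
          apply norm_det_le
          intro i j'
          by_cases hj : j' = j
          · subst hj
            rw [Matrix.updateCol_self]
            split_ifs
            · simpa using hβ₀1
            · simp only [norm_zero]; linarith
          · rw [Matrix.updateCol_ne hj]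
            exact norm_bMat_le hd hM1 (hnear z hz) i j'
        have h3 : cexp (h j z) * (bMat h z).det = (b j)⁻¹ *
            ((bMat h z).updateCol j fun i => if (i : ℕ) = 0 then 1 else 0).det := by
          rw [← h1, inv_mul_cancel_left₀ (hb j)]
        rw [h3, norm_mul, norm_inv, hβ]
        have h4 := hbj j
        gcongr
    have hlogβ : Real.log β = Real.log Q + (m * m : ℕ) * Real.log M := by
      have h1 : β = Q * M ^ (m * m) := by
        rw [hβ, hβ₀, hQ, mul_pow, ← pow_mul]
        ring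
      rw [h1, Real.log_mul (by positivity) (by positivity), Real.log_pow]
    calc T r = ∑ j, mT (h j) r := rfl
      _ ≤ ∑ _j : Fin m, (2 * Real.log β - CD) := Finset.sum_le_sum fun j _ => hprox j
      _ = m * (2 * Real.log β - CD) := by
          rw [Finset.sum_const, Finset.card_univ, Fintype.card_fin, nsmul_eq_mul]
      _ = _ := by rw [hlogβ]
  -- contradiction
  obtain ⟨t₀, ht₀1, ht₀⟩ := exists_lt_of_log_bound
    (m * (2 * Real.log Q - CD)) (m * (2 * (m * m : ℕ)))
    (8 * ((1 / c + |C| / c + 1) + 1) * (4 + c₀))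
  obtain ⟨r₀, hr₀⟩ := eventually_atTop.1 (hTtop.eventually (eventually_ge_atTop t₀))
  obtain ⟨r, hr1, hr2, hr3, hr4⟩ := exists_growth hTmono hTtop r₀
  have h1 := key r hr2 hr3 hr4
  have h2 : t₀ ≤ T r := hr₀ r hr1
  have h3 := ht₀ (T r) h2
  refine final_contradiction hc₀0 hc (by positivity) hr3 hr2 (hTlow r hr2) ?_ h3
  refine h1.trans (le_of_eq ?_)
  ring

/-- A nowhere vanishing entire function is an exponential. -/
theorem exists_exp {u : ℂ → ℂ} (hu : Differentiable ℂ u) (h0 : ∀ z, u z ≠ 0) :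
    ∃ h : ℂ → ℂ, Differentiable ℂ h ∧ ∀ z, u z = cexp (h z) := by
  have h1 : Differentiable ℂ (fun z => deriv u z / u z) := by
    refine Differentiable.fun_div ?_ hu h0
    exact fun z => (hu.analyticAt z).deriv.differentiableAt
  obtain ⟨g, hg⟩ := h1.isExactOn_univ
  have hgd : ∀ z, HasDerivAt g (deriv u z / u z) z := fun z => hg z (Set.mem_univ z)
  have h2 : ∀ z, HasDerivAt (fun z => u z * cexp (-g z)) 0 z := by
    intro z
    have h3 := (hu z).hasDerivAt.mul ((hgd z).neg.cexp)
    have h4 : deriv u z * cexp (-g z) + u z * (cexp (-g z) * -(deriv u z / u z)) = 0 := by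
      have h5 : u z * (deriv u z / u z) = deriv u z := mul_div_cancel₀ _ (h0 z)
      linear_combination (-cexp (-g z)) * h5
    rw [← h4]
    exact h3
  have h3 : ∀ z, u z * cexp (-g z) = u 0 * cexp (-g 0) := fun z =>
    is_const_of_deriv_eq_zero (fun z => (h2 z).differentiableAt) (fun z => (h2 z).deriv) z 0
  set c := u 0 * cexp (-g 0) with hc
  have hc0 : c ≠ 0 := mul_ne_zero (h0 0) (Complex.exp_ne_zero _)
  refine ⟨fun z => g z + Complex.log c, fun z => ((hgd z).add_const _).differentiableAt,
    fun z => ?_⟩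
  rw [Complex.exp_add, Complex.exp_log hc0, ← h3 z, mul_left_comm, ← Complex.exp_add,
    add_neg_cancel, Complex.exp_zero, mul_one]

/-- **Borel's lemma** for functions: nowhere vanishing entire functions which are pairwise not
proportional are linearly independent. -/
theorem borel_fun {k : ℕ} (u : Fin k → ℂ → ℂ) (hd : ∀ i, Differentiable ℂ (u i))
    (hu : ∀ i z, u i z ≠ 0) (hne : ∀ i j, i ≠ j → ¬ ∃ c : ℂ, ∀ z, u i z = c * u j z) :
    LinearIndependent ℂ u := by
  classical
  induction k with
  | zero => exact linearIndependent_empty_type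
  | succ k ih =>
    have htail := ih (fun i => u i.succ) (fun i => hd _) (fun i => hu _)
      fun i j hij => hne _ _ fun h => hij (Fin.succ_injective _ h)
    have hcons : u = Fin.cons (u 0) (fun i => u i.succ) := by
      funext i
      refine Fin.cases ?_ (fun j => ?_) i <;> simp
    rw [hcons, linearIndependent_finCons]
    refine ⟨htail, fun hmem => ?_⟩
    rw [Submodule.mem_span_range_iff_exists_fun] at hmem
    obtain ⟨c, hc⟩ := hmem
    -- the indices with nonzero coefficients
    have hq : ∀ i : Fin k, Differentiable ℂ (fun z => u i.succ z / u 0 z) := fun i =>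
      (hd i.succ).fun_div (hd 0) (hu 0)
    choose h hh1 hh2 using fun i : Fin k => exists_exp (hq i)
      fun z => div_ne_zero (hu i.succ z) (hu 0 z)
    let e := Fintype.equivFin {i : Fin k // c i ≠ 0}
    refine borel_core (fun j => h (e.symm j).1) (fun j => hh1 _) (fun j => ?_) ?_
      (fun j => c (e.symm j).1) (fun j => (e.symm j).2) fun z => ?_
    · by_contra hcon
      push Not at hcon
      apply hne (e.symm j).1.succ 0 (Fin.succ_ne_zero _)
      refine ⟨cexp (h (e.symm j).1 0), fun z => ?_⟩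
      have h1 := is_const_of_deriv_eq_zero (hh1 (e.symm j).1) hcon z 0
      have h2 := hh2 (e.symm j).1 z
      rw [h1, div_eq_iff (hu 0 z)] at h2
      exact h2
    · have h1 : LinearIndependent ℂ fun j => u (e.symm j).1.succ :=
        htail.comp (fun j => (e.symm j).1) fun a b hab => e.symm.injective (Subtype.ext hab)
      rw [Fintype.linearIndependent_iff] at h1 ⊢
      intro g hg i
      apply h1 g _ i
      funext z
      have h2 := congrFun hg z
      simp only [Finset.sum_apply, Pi.smul_apply, smul_eq_mul, Pi.zero_apply] at h2 ⊢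
      have h3 : ∑ j, g j * u (e.symm j).1.succ z =
          u 0 z * ∑ j, g j * cexp (h (e.symm j).1 z) := by
        rw [Finset.mul_sum]
        refine Finset.sum_congr rfl fun j _ => ?_
        rw [← hh2]
        field_simp [hu 0 z]
      rw [h3, h2, mul_zero]
    · have h1 := congrFun hc z
      simp only [Finset.sum_apply, Pi.smul_apply, smul_eq_mul] at h1
      have h2 : ∑ j, c (e.symm j).1 * cexp (h (e.symm j).1 z) =
          ∑ i : {i : Fin k // c i ≠ 0}, c i.1 * cexp (h i.1 z) :=
        Fintype.sum_equiv e.symm _ _ fun j => rfl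
      rw [h2]
      have h3 : ∑ i : {i : Fin k // c i ≠ 0}, c i.1 * cexp (h i.1 z) =
          ∑ i, c i * cexp (h i z) := by
        rw [← Finset.sum_subtype (s := Finset.univ.filter fun i => c i ≠ 0)
          (p := fun i => c i ≠ 0) (fun i => by simp) (fun i => c i * cexp (h i z))]
        apply Finset.sum_filter_of_ne
        intro i _ hi h0
        exact hi (by rw [h0, zero_mul])
      rw [h3]
      have h4 : ∑ i, c i * cexp (h i z) = (∑ i, c i * u i.succ z) / u 0 z := by
        rw [Finset.sum_div]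
        refine Finset.sum_congr rfl fun i _ => ?_
        rw [← hh2]
        ring
      rw [h4, h1, div_self (hu 0 z)]

/-- **Borel's lemma**: nowhere vanishing entire functions which are pairwise not proportional are
linearly independent. -/
theorem borel_linearIndependent {k : ℕ} (u : Fin k → H17.EntFun)
    (hu : ∀ i z, (u i : ℂ → ℂ) z ≠ 0)
    (hne : ∀ i j, i ≠ j → ¬ ∃ c : ℂ, u i = algebraMap ℂ H17.EntFun c * u j) :
    LinearIndependent ℂ u := by
  have h1 := borel_fun (fun i => (u i : ℂ → ℂ)) (fun i => (u i).diff) hu fun i j hij h => by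
    obtain ⟨c, hc⟩ := h
    exact hne i j hij ⟨c, H17.EntFun.ext' hc⟩
  exact LinearIndependent.of_comp H17.entire.val.toLinearMap h1

end Pool.Agent.H17B
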