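import Pool.Agent.H17B.Wronski

/-! # Borel's lemma: the contradiction -/

open Filter Complex ValueDistribution Matrix
open scoped Topology Real

noncomputable section

namespace Pool.Agent.H17B

lemma proximity_le_of_bound {f : ℂ → ℂ} {r β : ℝ} (hf : Differentiable ℂ f) (hr : 0 ≤ r)
    (hβ : 1 ≤ β) (hb : ∀ z, ‖z‖ = r → ‖f z‖ ≤ β) : proximity f ⊤ r ≤ Real.log β := by
  rw [proximity_top]
  have hm : MeromorphicOn f (Metric.sphere 0 |r|) := fun z _ => (hf.analyticAt z).meromorphicAt
  have h1 : Real.circleAverage (fun z => log⁺ ‖f z‖) 0 r ≤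
      Real.circleAverage (fun _ => Real.log β) 0 r := by
    apply Real.circleAverage_mono
    · exact MeromorphicOn.circleIntegrable_posLog_norm hm
    · exact circleIntegrable_const _ _ _
    · intro z hz
      have hz' : ‖z‖ = r := by
        rw [Metric.mem_sphere, dist_zero_right, abs_of_nonneg hr] at hz
        exact hz
      have h2 := hb z hz'
      change max 0 (Real.log ‖f z‖) ≤ Real.log β
      apply max_le (Real.log_nonneg hβ)
      by_cases h0 : ‖f z‖ = 0
      · rw [h0, Real.log_zero]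
        exact Real.log_nonneg hβ
      · exact Real.log_le_log (lt_of_le_of_ne (norm_nonneg _) (Ne.symm h0)) h2
  rw [Real.circleAverage_const] at h1
  exact h1

/-- The main inequality. -/
lemma mT_le_of_bound {φ D : ℂ → ℂ} (hφ : Differentiable ℂ φ) (hD : Differentiable ℂ D)
    (hne : ∃ z, D z ≠ 0) {C r β : ℝ} (hC : C ≤ Real.circleAverage (fun z => Real.log ‖D z‖) 0 r)
    (hr : 1 ≤ r) (hβ : 1 ≤ β) (h1 : ∀ z, ‖z‖ = r → ‖D z‖ ≤ β)
    (h2 : ∀ z, ‖z‖ = r → ‖φ z * D z‖ ≤ β) : proximity φ ⊤ r ≤ 2 * Real.log β - C := by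
  have hr0 : (0 : ℝ) ≤ r := by linarith
  have hmD : Meromorphic D := fun z => (hD.analyticAt z).meromorphicAt
  have hmφD : Meromorphic (fun z => φ z * D z) := fun z =>
    ((hφ.fun_mul hD).analyticAt z).meromorphicAt
  have hcod : φ =ᶠ[codiscrete ℂ] (fun z => φ z * D z) * D⁻¹ := by
    have h3 : ∀ᶠ z in codiscrete ℂ, D z ≠ 0 := by
      have han : AnalyticOnNhd ℂ D Set.univ := fun z _ => hD.analyticAt z
      obtain ⟨z₀, hz₀⟩ := hne
      exact han.preimage_zero_mem_codiscrete hz₀
    filter_upwards [h3] with z hz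
    simp only [Pi.mul_apply, Pi.inv_apply]
    field_simp
  rw [proximity_congr_codiscrete hcod (by linarith)]
  have h4 := proximity_mul_top_le hmφD hmD.inv r
  simp only [Pi.add_apply] at h4
  have h5 := congrFun (proximity_sub_proximity_inv_eq_circleAverage hmD) r
  simp only [Pi.sub_apply] at h5
  have h6 := proximity_le_of_bound hD hr0 hβ h1
  have h7 := proximity_le_of_bound (hφ.fun_mul hD) hr0 hβ h2
  linarith

end Pool.Agent.H17B
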