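import Mathlib

/-! # Borel's growth lemma -/

open Filter Complex
open scoped Topology

noncomputable section

namespace Pool.Agent.H17B

/-- The sequence `x 0 = a`, `x (n + 1) = x n + 1 / T (x n)`. -/
private def growthSeq (T : ℝ → ℝ) (a : ℝ) : ℕ → ℝ
  | 0 => a
  | n + 1 => growthSeq T a n + 1 / T (growthSeq T a n)

theorem exists_growth {T : ℝ → ℝ} (hmono : MonotoneOn T (Set.Ici 1)) (hT : Tendsto T atTop atTop)
    (r₀ : ℝ) : ∃ r, r₀ ≤ r ∧ 1 ≤ r ∧ 1 ≤ T r ∧ T (r + 1 / T r) ≤ 2 * T r := by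
  by_contra hcon
  push Not at hcon
  obtain ⟨a, ha⟩ := (hT.eventually_ge_atTop 1).exists_forall_of_atTop
  set r₁ : ℝ := max a (max r₀ 1) with hr₁
  have h1 : 1 ≤ r₁ := le_trans (le_max_right _ _) (le_max_right _ _)
  have h0 : r₀ ≤ r₁ := le_trans (le_max_left _ _) (le_max_right _ _)
  have hT1 : ∀ r, r₁ ≤ r → 1 ≤ T r := fun r hr => ha r (le_trans (le_max_left _ _) hr)
  have hstep : ∀ r, r₁ ≤ r → 2 * T r < T (r + 1 / T r) := fun r hr =>
    hcon r (h0.trans hr) (h1.trans hr) (hT1 r hr)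
  have key : ∀ n : ℕ, r₁ ≤ growthSeq T r₁ n ∧ (2 : ℝ) ^ n ≤ T (growthSeq T r₁ n) ∧
      growthSeq T r₁ n ≤ r₁ + 2 * (1 - (1 / 2) ^ n) := by
    intro n
    induction n with
    | zero =>
      refine ⟨le_refl _, ?_, ?_⟩
      · simpa [growthSeq] using hT1 r₁ le_rfl
      · simp [growthSeq]
    | succ n ih =>
      obtain ⟨i1, i2, i3⟩ := ih
      have hp : (0 : ℝ) < 2 ^ n := by positivity
      have hTp : 0 < T (growthSeq T r₁ n) := lt_of_lt_of_le hp i2
      have hx : growthSeq T r₁ (n + 1) = growthSeq T r₁ n + 1 / T (growthSeq T r₁ n) := rfl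
      refine ⟨?_, ?_, ?_⟩
      · rw [hx]
        have : 0 < 1 / T (growthSeq T r₁ n) := by positivity
        linarith
      · rw [hx, pow_succ]
        have := hstep _ i1
        linarith
      · rw [hx]
        have h2 : 1 / T (growthSeq T r₁ n) ≤ (1 / 2) ^ n := by
          rw [one_div_pow]
          exact one_div_le_one_div_of_le hp i2
        have h3 : (1 / 2 : ℝ) ^ (n + 1) = (1 / 2) ^ n / 2 := by rw [pow_succ]; ring
        rw [h3]
        linarith
  obtain ⟨n, hn⟩ := pow_unbounded_of_one_lt (T (r₁ + 2)) (one_lt_two : (1 : ℝ) < 2)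
  obtain ⟨k1, k2, k3⟩ := key n
  have h4 : growthSeq T r₁ n ≤ r₁ + 2 := by
    have : (0 : ℝ) < (1 / 2) ^ n := by positivity
    linarith
  have h5 : T (growthSeq T r₁ n) ≤ T (r₁ + 2) :=
    hmono (Set.mem_Ici.2 (h1.trans k1)) (Set.mem_Ici.2 (by linarith)) h4
  linarith

end Pool.Agent.H17B
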