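import Mathlib

/-! # Wronskians of linearly independent entire functions do not vanish identically -/

open Filter Complex
open scoped Topology

noncomputable section

namespace Pool.Agent.H17B

private lemma differentiable_det {n : ℕ} {A : ℂ → Matrix (Fin n) (Fin n) ℂ}
    (hA : ∀ i j, Differentiable ℂ fun z => A z i j) : Differentiable ℂ fun z => (A z).det := by
  simp only [Matrix.det_apply]
  refine Differentiable.fun_sum fun σ _ => ?_
  have h : Differentiable ℂ fun z => ∏ i, A z (σ i) i :=
    Differentiable.fun_finsetProd fun i _ => hA (σ i) i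
  exact h.const_smul _

private lemma differentiable_iteratedDeriv {f : ℂ → ℂ} (hf : Differentiable ℂ f) (n : ℕ) :
    Differentiable ℂ (iteratedDeriv n f) :=
  (hf.contDiff (n := ((n + 1 : ℕ) : WithTop ℕ∞))).differentiable_iteratedDeriv n
    (by exact_mod_cast Nat.lt_succ_self n)

theorem exists_wronskian_ne_zero {m : ℕ} (φ : Fin m → ℂ → ℂ) (hd : ∀ i, Differentiable ℂ (φ i))
    (hli : LinearIndependent ℂ φ) :
    ∃ z, Matrix.det (Matrix.of fun i j : Fin m => iteratedDeriv (i : ℕ) (φ j) z) ≠ 0 := by
  induction m with
  | zero => exact ⟨0, by simp⟩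
  | succ m ih =>
    by_contra hcon
    push Not at hcon
    obtain ⟨z₀, hz₀⟩ := ih (fun j => φ j.castSucc) (fun j => hd _)
      (hli.comp _ (Fin.castSucc_injective m))
    set A : ℂ → Matrix (Fin m) (Fin m) ℂ :=
      fun z => Matrix.of fun i j : Fin m => iteratedDeriv (i : ℕ) (φ j.castSucc) z with hA
    set b : ℂ → Fin m → ℂ := fun z i => iteratedDeriv (i : ℕ) (φ (Fin.last m)) z with hb
    have hAd : Differentiable ℂ fun z => (A z).det :=
      differentiable_det fun i j => differentiable_iteratedDeriv (hd _) _
    set c : Fin m → ℂ → ℂ := fun j z => ((A z).updateCol j (b z)).det / (A z).det with hc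
    have hU : IsOpen {z | (A z).det ≠ 0} := isOpen_ne_fun hAd.continuous continuous_const
    obtain ⟨r, hr, hball⟩ := Metric.isOpen_iff.1 hU z₀ hz₀
    have hcd : ∀ j, ∀ z, (A z).det ≠ 0 → DifferentiableAt ℂ (c j) z := by
      intro j z hz
      refine DifferentiableAt.div ?_ (hAd z) hz
      refine (differentiable_det (A := fun z => (A z).updateCol j (b z)) fun i k => ?_) z
      by_cases hk : k = j
      · subst hk
        simp only [Matrix.updateCol_self]
        exact differentiable_iteratedDeriv (hd _) _
      · simp only [Matrix.updateCol_ne hk]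
        exact differentiable_iteratedDeriv (hd _) _
    -- the coefficients solve the linear system
    have hsol : ∀ z, (A z).det ≠ 0 → (A z).mulVec (fun j => c j z) = b z := by
      intro z hz
      have h1 := Matrix.mulVec_cramer (A z) (b z)
      have h2 : (fun j => c j z) = ((A z).det)⁻¹ • Matrix.cramer (A z) (b z) := by
        funext j
        simp only [hc, Pi.smul_apply, Matrix.cramer_apply, smul_eq_mul]
        rw [div_eq_inv_mul]
      rw [h2, Matrix.mulVec_smul, h1, smul_smul, inv_mul_cancel₀ hz, one_smul]
    have hlast : ∀ z, (A z).det ≠ 0 →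
        ∑ j, iteratedDeriv m (φ j.castSucc) z * c j z = iteratedDeriv m (φ (Fin.last m)) z := by
      intro z hz
      obtain ⟨v, hv0, hv⟩ := Matrix.exists_mulVec_eq_zero_iff.2 (hcon z)
      have hrow : ∀ i : Fin (m + 1), ∑ j : Fin m, iteratedDeriv (i : ℕ) (φ j.castSucc) z *
          v j.castSucc + iteratedDeriv (i : ℕ) (φ (Fin.last m)) z * v (Fin.last m) = 0 := by
        intro i
        have := congrFun hv i
        simpa [Matrix.mulVec, dotProduct, Fin.sum_univ_castSucc] using this
      have hvl : v (Fin.last m) ≠ 0 := by
        intro h0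
        apply hv0
        have hz' : (fun j : Fin m => v j.castSucc) = 0 := by
          apply Matrix.eq_zero_of_mulVec_eq_zero hz
          funext i
          have := hrow i.castSucc
          rw [h0, mul_zero, add_zero] at this
          simpa [Matrix.mulVec, dotProduct, hA] using this
        funext i
        refine Fin.lastCases h0 (fun j => ?_) i
        exact congrFun hz' j
      have hcv : (fun j => c j z) = fun j : Fin m => - v j.castSucc / v (Fin.last m) := by
        have hdiff : (A z).mulVec ((fun j => c j z) -
            fun j : Fin m => - v j.castSucc / v (Fin.last m)) = 0 := by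
          rw [Matrix.mulVec_sub, hsol z hz, sub_eq_zero]
          funext i
          have h3 := hrow i.castSucc
          simp only [Fin.val_castSucc] at h3
          simp only [hb, hA, Matrix.mulVec, dotProduct, Matrix.of_apply]
          have h4 : ∑ j : Fin m, iteratedDeriv (i : ℕ) (φ j.castSucc) z *
              (-v j.castSucc / v (Fin.last m)) =
              -(∑ j : Fin m, iteratedDeriv (i : ℕ) (φ j.castSucc) z * v j.castSucc) /
                v (Fin.last m) := by
            rw [← Finset.sum_neg_distrib, Finset.sum_div]
            refine Finset.sum_congr rfl fun j _ => by ring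
          rw [h4, eq_div_iff hvl]
          linear_combination h3
        exact sub_eq_zero.1 (Matrix.eq_zero_of_mulVec_eq_zero hz hdiff)
      have h5 := hrow (Fin.last m)
      simp only [Fin.val_last] at h5
      have h6 : ∀ j, c j z = - v j.castSucc / v (Fin.last m) := fun j => congrFun hcv j
      have h7 : ∑ j, iteratedDeriv m (φ j.castSucc) z * c j z =
          -(∑ j : Fin m, iteratedDeriv m (φ j.castSucc) z * v j.castSucc) / v (Fin.last m) := by
        rw [← Finset.sum_neg_distrib, Finset.sum_div]
        refine Finset.sum_congr rfl fun j _ => by rw [h6]; ring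
      rw [h7, div_eq_iff hvl]
      linear_combination -h5
    have hall : ∀ i ≤ m, ∀ z, (A z).det ≠ 0 →
        ∑ j, iteratedDeriv i (φ j.castSucc) z * c j z = iteratedDeriv i (φ (Fin.last m)) z := by
      intro i hi z hz
      rcases hi.lt_or_eq with hi' | rfl
      · have := congrFun (hsol z hz) ⟨i, hi'⟩
        simpa [Matrix.mulVec, dotProduct, hA, hb] using this
      · exact hlast z hz
    have hderiv : ∀ j, ∀ z, (A z).det ≠ 0 → deriv (c j) z = 0 := by
      intro j₀ z hz
      have hzero : (A z).mulVec (fun j => deriv (c j) z) = 0 := by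
        funext i
        have hev : (fun w => ∑ j, iteratedDeriv (i : ℕ) (φ j.castSucc) w * c j w) =ᶠ[𝓝 z]
            iteratedDeriv (i : ℕ) (φ (Fin.last m)) := by
          filter_upwards [hU.mem_nhds hz] with w hw
          exact hall i i.2.le w hw
        have h1 := hev.deriv_eq
        have h2 : deriv (fun w => ∑ j, iteratedDeriv (i : ℕ) (φ j.castSucc) w * c j w) z =
            ∑ j, (iteratedDeriv ((i : ℕ) + 1) (φ j.castSucc) z * c j z +
              iteratedDeriv (i : ℕ) (φ j.castSucc) z * deriv (c j) z) := by
          rw [deriv_fun_sum]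
          · refine Finset.sum_congr rfl fun j _ => ?_
            rw [deriv_fun_mul (differentiable_iteratedDeriv (hd _) _ z) (hcd j z hz),
              iteratedDeriv_succ]
          · intro j _
            exact (differentiable_iteratedDeriv (hd _) _ z).mul (hcd j z hz)
        have h3 := hall ((i : ℕ) + 1) i.2 z hz
        rw [h2, Finset.sum_add_distrib, h3, ← iteratedDeriv_succ] at h1
        have h4 : ∑ j, iteratedDeriv (i : ℕ) (φ j.castSucc) z * deriv (c j) z = 0 := by
          linear_combination h1
        simpa [Matrix.mulVec, dotProduct, hA] using h4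
      exact congrFun (Matrix.eq_zero_of_mulVec_eq_zero hz hzero) j₀
    have hconst : ∀ j, ∀ z ∈ Metric.ball z₀ r, c j z = c j z₀ := by
      intro j z hz
      exact (Metric.isOpen_ball.is_const_of_deriv_eq_zero (convex_ball z₀ r).isPreconnected
        (fun w hw => (hcd j w (hball hw)).differentiableWithinAt)
        (fun w hw => hderiv j w (hball hw)) hz (Metric.mem_ball_self hr))
    -- identity theorem
    have hid : ∀ z, ∑ j, φ j.castSucc z * c j z₀ = φ (Fin.last m) z := by
      have hL : Differentiable ℂ fun z => ∑ j, φ j.castSucc z * c j z₀ :=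
        Differentiable.fun_sum fun j _ => (hd _).mul_const _
      have h1 : AnalyticOnNhd ℂ (fun z => ∑ j, φ j.castSucc z * c j z₀) Set.univ :=
        fun z _ => hL.analyticAt z
      have h2 : AnalyticOnNhd ℂ (φ (Fin.last m)) Set.univ := fun z _ => (hd _).analyticAt z
      have h3 : (fun z => ∑ j, φ j.castSucc z * c j z₀) =ᶠ[𝓝 z₀] φ (Fin.last m) := by
        filter_upwards [Metric.ball_mem_nhds z₀ hr] with z hz
        have h4 := hall 0 (Nat.zero_le _) z (hball hz)
        simp only [iteratedDeriv_zero] at h4
        rw [← h4]
        exact Finset.sum_congr rfl fun j _ => by rw [hconst j z hz]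
      intro z
      exact congrFun (h1.eq_of_eventuallyEq h2 h3) z
    have hsum := Fintype.linearIndependent_iff.1 hli
      (Fin.lastCases (-1) fun j => c j z₀) (by
        funext z
        simp only [Fin.sum_univ_castSucc, Fin.lastCases_castSucc, Fin.lastCases_last,
          Finset.sum_apply, Pi.smul_apply, smul_eq_mul, Pi.zero_apply]
        have := hid z
        rw [← this]
        have h5 : ∑ j, c j z₀ * φ j.castSucc z = ∑ j, φ j.castSucc z * c j z₀ :=
          Finset.sum_congr rfl fun j _ => mul_comm _ _
        rw [h5]; ring) (Fin.last m)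
    simp at hsum

end Pool.Agent.H17B
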