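import Mathlib

/-! # Borel's lemma, module BD: Cauchy estimate for the derivatives of an exponential -/

open Filter Complex
open scoped Topology

noncomputable section

namespace Pool.Agent.H17B

theorem norm_iteratedDeriv_exp_le {h : ℂ → ℂ} (hh : Differentiable ℂ h) {z : ℂ} {M : ℝ}
    (hM : 0 < M) (hb : ∀ ζ, ‖ζ - z‖ ≤ 1 / M → ‖deriv h ζ‖ ≤ M) (i : ℕ) :
    ‖iteratedDeriv i (fun ζ => cexp (h ζ)) z‖ ≤
      i.factorial * Real.exp 1 * M ^ i * ‖cexp (h z)‖ := by
  have hR : 0 < 1 / M := one_div_pos.2 hM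
  have hd : Differentiable ℂ (fun ζ => cexp (h ζ)) := hh.cexp
  have hC : ∀ ζ ∈ Metric.sphere z (1 / M), ‖cexp (h ζ)‖ ≤ Real.exp 1 * ‖cexp (h z)‖ := by
    intro ζ hζ
    have hζ' : ζ ∈ Metric.closedBall z (1 / M) := Metric.sphere_subset_closedBall hζ
    have h1 : ‖h ζ - h z‖ ≤ M * ‖ζ - z‖ := by
      apply (convex_closedBall z (1 / M)).norm_image_sub_le_of_norm_deriv_le
        (f := h) (fun x _ => hh x) _ (Metric.mem_closedBall_self hR.le) hζ'
      intro x hx
      apply hb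
      rwa [Metric.mem_closedBall, dist_eq_norm] at hx
    have h2 : ‖ζ - z‖ = 1 / M := by
      rwa [Metric.mem_sphere, dist_eq_norm] at hζ
    rw [h2, mul_one_div_cancel hM.ne'] at h1
    have h3 : cexp (h ζ) = cexp (h ζ - h z) * cexp (h z) := by
      rw [← Complex.exp_add, sub_add_cancel]
    rw [h3, norm_mul]
    apply mul_le_mul_of_nonneg_right _ (norm_nonneg _)
    rw [Complex.norm_exp]
    exact Real.exp_le_exp.2 ((Complex.re_le_norm _).trans h1)
  have h4 := norm_iteratedDeriv_le_of_forall_mem_sphere_norm_le i hR hd.diffContOnCl hC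
  refine h4.trans (le_of_eq ?_)
  rw [one_div, inv_pow, div_inv_eq_mul]
  ring

end Pool.Agent.H17B
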