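import Mathlib

/-! # Borel's lemma: module BF -/

open Filter Complex
open scoped Topology

noncomputable section

namespace Pool.Agent.H17B

/-! ### BF -/
theorem exists_le_circleAverage_log_norm {D : ℂ → ℂ} (hD : Differentiable ℂ D)
    (hne : ∃ z, D z ≠ 0) :
    ∃ C : ℝ, ∀ r : ℝ, 1 ≤ r → C ≤ Real.circleAverage (fun z => Real.log ‖D z‖) 0 r := by
  have _ := hne
  refine ⟨Real.log ‖meromorphicTrailingCoeffAt D 0‖, fun r hr => ?_⟩
  have han : AnalyticOnNhd ℂ D (Metric.closedBall 0 |r|) :=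
    fun z _ => hD.analyticAt z
  have hr0 : r ≠ 0 := by positivity
  have habs : |r| = r := abs_of_nonneg (by linarith)
  have key := MeromorphicOn.circleAverage_log_norm (c := (0 : ℂ)) (R := r) (f := D) hr0
    han.meromorphicOn
  rw [key]
  have hdiv : ∀ u, (0 : ℤ) ≤ MeromorphicOn.divisor D (Metric.closedBall 0 |r|) u :=
    fun u => (MeromorphicOn.AnalyticOnNhd.divisor_nonneg han) u
  have h1 : (0 : ℝ) ≤ ∑ᶠ u, (MeromorphicOn.divisor D (Metric.closedBall 0 |r|) u : ℝ) *
      Real.log (r * ‖(0 : ℂ) - u‖⁻¹) := by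
    refine finsum_nonneg fun u => ?_
    by_cases hu : u ∈ Metric.closedBall (0 : ℂ) |r|
    · refine mul_nonneg (by exact_mod_cast hdiv u) ?_
      rw [zero_sub, norm_neg]
      by_cases hu0 : ‖u‖ = 0
      · simp [hu0]
      · have hupos : 0 < ‖u‖ := lt_of_le_of_ne (norm_nonneg u) (Ne.symm hu0)
        have hle : ‖u‖ ≤ r := by
          simpa [habs] using hu
        refine Real.log_nonneg ?_
        rw [← div_eq_mul_inv, le_div_iff₀ hupos]
        simpa using hle
    · have : MeromorphicOn.divisor D (Metric.closedBall 0 |r|) u = 0 :=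
        Function.locallyFinsuppWithin.apply_eq_zero_of_notMem _ hu
      simp [this]
  have h2 : (0 : ℝ) ≤ (MeromorphicOn.divisor D (Metric.closedBall 0 |r|) 0 : ℝ) * Real.log r :=
    mul_nonneg (by exact_mod_cast hdiv 0) (Real.log_nonneg hr)
  linarith

end Pool.Agent.H17B
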