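import Pool.Agent.H17B.ModBA
import Pool.Agent.H17B.ModBB
import Pool.Agent.H17B.ModBC
import Pool.Agent.H17B.ModBD
import Pool.Agent.H17B.ModBF

/-! # Borel's lemma: the main inequality -/

open Filter Complex ValueDistribution
open scoped Topology Real

noncomputable section

namespace Pool.Agent.H17B

/-- The proximity function of `e^h`. -/
def mT (h : ℂ → ℂ) (r : ℝ) : ℝ := Real.circleAverage (fun z => max 0 (h z).re) 0 r

lemma posLog_norm_exp (w : ℂ) : log⁺ ‖cexp w‖ = max 0 w.re := by
  rw [Complex.norm_exp]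
  change max 0 (Real.log (Real.exp w.re)) = _
  rw [Real.log_exp]

lemma mT_eq_proximity (h : ℂ → ℂ) (r : ℝ) : mT h r = proximity (fun z => cexp (h z)) ⊤ r := by
  rw [proximity_top, mT]
  congr 1
  funext z
  rw [posLog_norm_exp]

lemma logCounting_top_of_entire {f : ℂ → ℂ} (hf : Differentiable ℂ f) : logCounting f ⊤ = 0 := by
  rw [logCounting_top]
  have h1 : 0 ≤ MeromorphicOn.divisor f Set.univ :=
    MeromorphicOn.AnalyticOnNhd.divisor_nonneg fun z _ => hf.analyticAt z
  rw [negPart_eq_zero.mpr h1]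
  simp

lemma mT_eq_characteristic {h : ℂ → ℂ} (hh : Differentiable ℂ h) (r : ℝ) :
    mT h r = characteristic (fun z => cexp (h z)) ⊤ r := by
  rw [characteristic, logCounting_top_of_entire hh.cexp, add_zero, mT_eq_proximity]

lemma mT_mono {h : ℂ → ℂ} (hh : Differentiable ℂ h) : MonotoneOn (mT h) (Set.Ici 1) := by
  intro a ha b hb hab
  rw [mT_eq_characteristic hh, mT_eq_characteristic hh]
  have hm : Meromorphic (fun z => cexp (h z)) := fun z => (hh.cexp.analyticAt z).meromorphicAt
  have ha' : (0 : ℝ) < a := lt_of_lt_of_le one_pos ha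
  have hb' : (0 : ℝ) < b := lt_of_lt_of_le one_pos hb
  exact characteristic_monotoneOn hm ha' hb' hab

lemma mT_nonneg (h : ℂ → ℂ) (r : ℝ) : 0 ≤ mT h r :=
  Real.circleAverage_nonneg_of_nonneg fun _ _ => le_max_left _ _

lemma circleIntegrable_re {h : ℂ → ℂ} (hh : Differentiable ℂ h) (R : ℝ) :
    CircleIntegrable (fun z => (h z).re) 0 R :=
  (Complex.continuous_re.comp hh.continuous).continuousOn.circleIntegrable'

lemma circleAverage_re {h : ℂ → ℂ} (hh : Differentiable ℂ h) (R : ℝ) :
    Real.circleAverage (fun z => (h z).re) 0 R = (h 0).re := by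
  have h1 : Real.circleAverage h 0 R = h 0 := by
    apply DiffContOnCl.circleAverage
    exact hh.diffContOnCl
  have h2 := Complex.reCLM.circleAverage_comp_comm (f := h) (c := 0) (R := R)
    hh.continuous.continuousOn.circleIntegrable'
  rw [h1] at h2
  exact h2

lemma average_abs_le {h : ℂ → ℂ} (hh : Differentiable ℂ h) (R : ℝ) :
    Real.circleAverage (fun z => |(h z).re|) 0 R ≤ 2 * mT h R + |(h 0).re| := by
  have hint : CircleIntegrable (fun z => max 0 (h z).re) 0 R :=
    (continuous_const.max (Complex.continuous_re.comp hh.continuous)).continuousOn.circleIntegrable'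
  have h1 : (fun z => |(h z).re|) = fun z => (2 : ℝ) • max 0 (h z).re - (h z).re := by
    funext z
    rw [smul_eq_mul]
    rcases le_total 0 (h z).re with h0 | h0
    · rw [abs_of_nonneg h0, max_eq_right h0]; ring
    · rw [abs_of_nonpos h0, max_eq_left h0]; ring
  rw [h1, Real.circleAverage_fun_sub (hint.const_fun_smul) (circleIntegrable_re hh R),
    Real.circleAverage_fun_smul, circleAverage_re hh]
  have := neg_abs_le (h 0).re
  simp only [smul_eq_mul, mT]
  linarith

/-- The growth of `e^h` for nonconstant `h`. -/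
lemma exists_growth_lower {h : ℂ → ℂ} (hh : Differentiable ℂ h) (hne : ∃ w, deriv h w ≠ 0) :
    ∃ c C : ℝ, 0 < c ∧ ∀ R, 1 ≤ R → c * R - C ≤ mT h R := by
  obtain ⟨w, hw⟩ := hne
  have hp : 0 < ‖deriv h w‖ := norm_pos_iff.2 hw
  refine ⟨‖deriv h w‖ / 16, |(h 0).re| / 2 + ‖deriv h w‖ / 16 * (2 * ‖w‖), by positivity,
    fun R hR => ?_⟩
  have hT := mT_nonneg h R
  rcases le_or_gt R (2 * ‖w‖) with h1 | h1
  · have h2 : ‖deriv h w‖ / 16 * R ≤ ‖deriv h w‖ / 16 * (2 * ‖w‖) := by gcongr
    have h3 : 0 ≤ |(h 0).re| := abs_nonneg _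
    linarith
  · have hwR : ‖w‖ < R := by linarith [norm_nonneg w]
    have h2 := norm_deriv_le hh hwR
    have h3 := average_abs_le hh R
    have h4 : 2 * R / (R - ‖w‖) ^ 2 ≤ 8 / R := by
      have h5 : R / 2 ≤ R - ‖w‖ := by linarith
      rw [div_le_div_iff₀ (by positivity) (by positivity)]
      have h6 : (R / 2) ^ 2 ≤ (R - ‖w‖) ^ 2 := by gcongr
      nlinarith
    have h7 : 0 ≤ 2 * mT h R + |(h 0).re| := by positivity
    have h8 : ‖deriv h w‖ ≤ 8 / R * (2 * mT h R + |(h 0).re|) := by
      refine h2.trans ?_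
      have h9 : 0 ≤ Real.circleAverage (fun z => |(h z).re|) 0 R :=
        Real.circleAverage_nonneg_of_nonneg fun _ _ => abs_nonneg _
      gcongr
    have h9 : ‖deriv h w‖ * R ≤ 8 * (2 * mT h R + |(h 0).re|) := by
      have h10 := mul_le_mul_of_nonneg_right h8 (show 0 ≤ R by linarith)
      have h11 : 8 / R * (2 * mT h R + |(h 0).re|) * R = 8 * (2 * mT h R + |(h 0).re|) := by
        field_simp
      rwa [h11] at h10
    have h12 : 0 ≤ ‖deriv h w‖ / 16 * (2 * ‖w‖) := by positivity
    linarith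

end Pool.Agent.H17B
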