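import Mathlib

/-!
# A gradient estimate from the Poisson formula
-/

open Filter Complex Metric
open scoped Topology

noncomputable section

namespace Pool.Agent.H17B

/-- if the real part of a function vanishes near a point, then its derivative vanishes there -/
private lemma ba_deriv_eq_zero {g : ℂ → ℂ} {g' w : ℂ} (hg : HasDerivAt g g' w)
    (h0 : ∀ᶠ z in 𝓝 w, (g z).re = 0) : g' = 0 := by
  have key : ∀ v : ℂ, (v * g').re = 0 := by
    intro v
    have h1 : HasDerivAt (fun t : ℝ => w + (t : ℂ) * v) v (0 : ℝ) := by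
      have h2 : HasDerivAt (fun t : ℝ => (t : ℂ)) 1 (0 : ℝ) := Complex.ofRealCLM.hasDerivAt
      have h3 := (h2.mul_const v).const_add w
      simpa using h3
    have h2 : HasDerivAt (fun t : ℝ => g (w + (t : ℂ) * v)) (g' * v) (0 : ℝ) := by
      have h3 : HasDerivAt g g' (w + ((0 : ℝ) : ℂ) * v) := by simpa using hg
      exact h3.comp (0 : ℝ) h1
    have h3 : HasDerivAt (fun t : ℝ => (g (w + (t : ℂ) * v)).re) (g' * v).re (0 : ℝ) := by
      exact Complex.reCLM.hasFDerivAt.comp_hasDerivAt (0 : ℝ) h2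
    have h4 : ∀ᶠ t : ℝ in 𝓝 0, (g (w + (t : ℂ) * v)).re = 0 := by
      have h5 : Tendsto (fun t : ℝ => w + (t : ℂ) * v) (𝓝 0) (𝓝 w) := by
        have h6 := h1.continuousAt.tendsto
        simpa using h6
      exact h5.eventually h0
    have h5 : HasDerivAt (fun t : ℝ => (g (w + (t : ℂ) * v)).re) 0 (0 : ℝ) :=
      (hasDerivAt_const (0 : ℝ) (0 : ℝ)).congr_of_eventuallyEq h4
    rw [mul_comm]
    exact h3.unique h5
  have h1 := key 1
  have h2 := key I
  simp at h1 h2
  exact Complex.ext h1 h2

theorem norm_deriv_le {h : ℂ → ℂ} (hh : Differentiable ℂ h) {R : ℝ} {w : ℂ} (hw : ‖w‖ < R) :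
    ‖deriv h w‖ ≤ 2 * R / (R - ‖w‖) ^ 2 * Real.circleAverage (fun z => |(h z).re|) 0 R := by
  have hR : 0 < R := (norm_nonneg w).trans_lt hw
  have hcu : Continuous fun z => (h z).re := Complex.continuous_re.comp hh.continuous
  have hu : CircleIntegrable (fun z => (h z).re) 0 R := hcu.continuousOn.circleIntegrable hR.le
  have huC : CircleIntegrable (fun z => ((h z).re : ℂ)) 0 R :=
    (Complex.continuous_ofReal.comp hcu).continuousOn.circleIntegrable hR.le
  set H : ℂ → ℂ := fun w => Real.circleAverage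
    (fun ζ => herglotzRieszKernel 0 w ζ • (((h ζ).re : ℝ) : ℂ)) 0 R with hH
  have hre : ∀ x ∈ ball (0 : ℂ) R, (h x - H x).re = 0 := by
    intro x hx
    have h1 := re_circleAverage_herglotzRieszKernel_smul hu hx
    have h2 := (hh.diffContOnCl (s := ball (0 : ℂ) R)).circleAverage_re_herglotzRieszKernel_smul hx
    have h3 : CircleIntegrable ((re ∘ herglotzRieszKernel 0 x) • h) 0 R := by
      have h4 : CircleIntegrable h 0 R := hh.continuous.continuousOn.circleIntegrable hR.le
      refine h4.continuousOn_smul ?_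
      exact Complex.continuous_re.comp_continuousOn (continuousOn_herglotzRieszKernel_sphere hx)
    have h4 := Complex.reCLM.circleAverage_comp_comm h3
    rw [h2] at h4
    have h5 : (Complex.reCLM ∘ ((re ∘ herglotzRieszKernel 0 x) • h)) =
        (Complex.re ∘ herglotzRieszKernel 0 x) • fun z => (h z).re := by
      ext z
      simp
    rw [h5] at h4
    rw [sub_re, h1, h4]
    simp
  have hwb : w ∈ ball (0 : ℂ) R := by simpa using hw
  have hd := hasDerivAt_circleAverage_herglotzRieszKernel_smul huC hwb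
  have hd2 : HasDerivAt (fun x => h x - H x) (deriv h w - Real.circleAverage
      (fun ζ => (2 * ζ / (ζ - w) ^ 2) • (((h ζ).re : ℝ) : ℂ)) 0 R) w :=
    hh.differentiableAt.hasDerivAt.sub hd
  have h0 := ba_deriv_eq_zero hd2 (by
    filter_upwards [isOpen_ball.mem_nhds hwb] with x hx
    exact hre x hx)
  rw [sub_eq_zero] at h0
  rw [h0]
  have hRw : 0 < R - ‖w‖ := by linarith
  have hbound : ∀ z ∈ sphere (0 : ℂ) R, ‖(2 * z / (z - w) ^ 2) • (((h z).re : ℝ) : ℂ)‖ ≤
      2 * R / (R - ‖w‖) ^ 2 * |(h z).re| := by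
    intro z hz
    have hz' : ‖z‖ = R := by simpa using hz
    have h1 : R - ‖w‖ ≤ ‖z - w‖ := by
      rw [← hz']
      exact norm_sub_norm_le z w
    rw [norm_smul, norm_div, norm_mul, norm_pow, hz', Complex.norm_real, Real.norm_eq_abs]
    have h2 : ‖(2 : ℂ)‖ = 2 := by norm_num
    rw [h2]
    gcongr
  have hci : CircleIntegrable (fun z => 2 * R / (R - ‖w‖) ^ 2 * |(h z).re|) 0 R :=
    (continuous_const.mul hcu.abs).continuousOn.circleIntegrable hR.le
  have h6 : Real.circleAverage (fun z => 2 * R / (R - ‖w‖) ^ 2 * |(h z).re|) 0 R =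
      2 * R / (R - ‖w‖) ^ 2 * Real.circleAverage (fun z => |(h z).re|) 0 R := by
    have h7 := Real.circleAverage_fun_smul (a := 2 * R / (R - ‖w‖) ^ 2)
      (f := fun z => |(h z).re|) (c := 0) (R := R)
    simpa only [smul_eq_mul] using h7
  rw [← h6]
  unfold Real.circleAverage
  rw [norm_smul, smul_eq_mul, norm_inv, Real.norm_eq_abs, abs_of_pos Real.two_pi_pos]
  refine mul_le_mul_of_nonneg_left ?_ (by positivity)
  refine intervalIntegral.norm_integral_le_of_norm_le Real.two_pi_pos.le ?_ hci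
  filter_upwards with θ _
  exact hbound _ (circleMap_mem_sphere 0 hR.le θ)

end Pool.Agent.H17B
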