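import Pool.Agent.H17B.Core

/-! # Borel's lemma: the Wronskian -/

open Filter Complex ValueDistribution Matrix
open scoped Topology Real

noncomputable section

namespace Pool.Agent.H17B

variable {m : ℕ} (h : Fin m → ℂ → ℂ)

/-- The matrix of derivatives of `e^{h_j}`. -/
def wMat (z : ℂ) : Matrix (Fin m) (Fin m) ℂ :=
  Matrix.of fun i j => iteratedDeriv (i : ℕ) (fun ζ => cexp (h j ζ)) z

/-- The matrix of logarithmic derivatives of `e^{h_j}`. -/
def bMat (z : ℂ) : Matrix (Fin m) (Fin m) ℂ :=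
  Matrix.of fun i j => cexp (-h j z) * wMat h z i j

lemma det_bMat (z : ℂ) : (bMat h z).det = (∏ j, cexp (-h j z)) * (wMat h z).det := by
  rw [← Matrix.det_mul_row]
  rfl

variable {h} (hd : ∀ j, Differentiable ℂ (h j))

include hd

lemma differentiable_wMat (i j : Fin m) : Differentiable ℂ fun z => wMat h z i j := by
  have h1 : ContDiff ℂ ⊤ (fun ζ => cexp (h j ζ)) := (hd j).cexp.contDiff
  refine h1.differentiable_iteratedDeriv (i : ℕ) ?_
  exact WithTop.coe_lt_top _

lemma differentiable_det_bMat : Differentiable ℂ fun z => (bMat h z).det := by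
  simp only [det_bMat]
  refine Differentiable.fun_mul ?_ ?_
  · exact Differentiable.fun_finsetProd fun j _ => (hd j).neg.cexp
  · simp only [Matrix.det_apply']
    refine Differentiable.fun_sum fun σ _ => ?_
    refine Differentiable.fun_mul (differentiable_const _) ?_
    exact Differentiable.fun_finsetProd fun j _ => differentiable_wMat hd _ _

lemma wMat_relation {b : Fin m → ℂ} (hrel : ∀ z, ∑ j, b j * cexp (h j z) = 1) (z : ℂ)
    (i : Fin m) : ∑ j, b j * wMat h z i j = if (i : ℕ) = 0 then 1 else 0 := by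
  have h1 : iteratedDeriv (i : ℕ) (fun z => ∑ j, b j * cexp (h j z)) z =
      ∑ j, b j * wMat h z i j := by
    rw [iteratedDeriv_fun_sum]
    · refine Finset.sum_congr rfl fun j _ => ?_
      rw [iteratedDeriv_const_mul_field]
      rfl
    · intro j _
      have h1 : ContDiff ℂ ⊤ (fun ζ => b j * cexp (h j ζ)) :=
        (differentiable_const (b j)).fun_mul (hd j).cexp |>.contDiff
      exact (h1.of_le le_top).contDiffAt
  rw [← h1]
  have h2 : (fun z => ∑ j, b j * cexp (h j z)) = fun _ => (1 : ℂ) := funext hrel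
  rw [h2, iteratedDeriv_const]

/-- `e^{h_j} det B` is the determinant of a matrix of logarithmic derivatives. -/
lemma exp_mul_det {b : Fin m → ℂ} (hrel : ∀ z, ∑ j, b j * cexp (h j z) = 1) (z : ℂ)
    (j₀ : Fin m) :
    b j₀ * (cexp (h j₀ z) * (bMat h z).det) =
      ((bMat h z).updateCol j₀ fun i => if (i : ℕ) = 0 then 1 else 0).det := by
  have h1 : ((wMat h z).updateCol j₀ fun i => ∑ j, b j • wMat h z i j).det =
      b j₀ • (wMat h z).det := Matrix.det_updateCol_sum _ _ _
  have h2 : (fun i => ∑ j, b j • wMat h z i j) = fun i : Fin m => if (i : ℕ) = 0 then (1 : ℂ) else 0 := by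
    funext i
    simp only [smul_eq_mul]
    exact wMat_relation hd hrel z i
  rw [h2] at h1
  have h3 : ((bMat h z).updateCol j₀ fun i => if (i : ℕ) = 0 then 1 else 0) =
      Matrix.of fun i j => (if j = j₀ then 1 else cexp (-h j z)) *
        ((wMat h z).updateCol j₀ fun i => if (i : ℕ) = 0 then (1 : ℂ) else 0) i j := by
    ext i j
    by_cases hj : j = j₀
    · subst hj
      simp
    · simp [hj, bMat]
  rw [h3, Matrix.det_mul_row, h1, det_bMat, smul_eq_mul]
  have h4 : cexp (h j₀ z) * ∏ j, cexp (-h j z) = ∏ j, (if j = j₀ then 1 else cexp (-h j z)) := by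
    rw [← Finset.mul_prod_erase _ _ (Finset.mem_univ j₀), ← mul_assoc, ← Complex.exp_add,
      add_neg_cancel, Complex.exp_zero, one_mul, ← Finset.mul_prod_erase _ _ (Finset.mem_univ j₀),
      if_pos rfl, one_mul]
    refine Finset.prod_congr rfl fun j hj => ?_
    rw [if_neg (Finset.ne_of_mem_erase hj)]
  rw [← h4]
  ring

/-- Bounds for the matrix of logarithmic derivatives. -/
lemma norm_bMat_le {z : ℂ} {M : ℝ} (hM : 1 ≤ M)
    (hb : ∀ j, ∀ ζ, ‖ζ - z‖ ≤ 1 / M → ‖deriv (h j) ζ‖ ≤ M) (i j : Fin m) :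
    ‖bMat h z i j‖ ≤ m.factorial * Real.exp 1 * M ^ m := by
  have hM0 : 0 < M := by linarith
  have h1 := norm_iteratedDeriv_exp_le (hd j) hM0 (hb j) (i : ℕ)
  have h2 : ‖bMat h z i j‖ =
      ‖cexp (-h j z)‖ * ‖iteratedDeriv (i : ℕ) (fun ζ => cexp (h j ζ)) z‖ := by
    rw [bMat, Matrix.of_apply, norm_mul]
    rfl
  rw [h2]
  calc ‖cexp (-h j z)‖ * ‖iteratedDeriv (i : ℕ) (fun ζ => cexp (h j ζ)) z‖
      ≤ ‖cexp (-h j z)‖ * ((i : ℕ).factorial * Real.exp 1 * M ^ (i : ℕ) * ‖cexp (h j z)‖) := by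
        gcongr
    _ = (i : ℕ).factorial * Real.exp 1 * M ^ (i : ℕ) * (‖cexp (-h j z)‖ * ‖cexp (h j z)‖) := by ring
    _ = (i : ℕ).factorial * Real.exp 1 * M ^ (i : ℕ) := by
        rw [← norm_mul, ← Complex.exp_add, neg_add_cancel, Complex.exp_zero, norm_one, mul_one]
    _ ≤ m.factorial * Real.exp 1 * M ^ m := by
        have h3 : (i : ℕ).factorial ≤ m.factorial := Nat.factorial_le i.2.le
        have h4 : M ^ (i : ℕ) ≤ M ^ m := pow_le_pow_right₀ hM i.2.le
        have h5 : ((i : ℕ).factorial : ℝ) ≤ m.factorial := by exact_mod_cast h3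
        gcongr

omit hd in
lemma norm_det_le {A : Matrix (Fin m) (Fin m) ℂ} {β : ℝ} (hA : ∀ i j, ‖A i j‖ ≤ β) :
    ‖A.det‖ ≤ m.factorial * β ^ m := by
  have := Matrix.det_le (A := A) (abv := (NormedField.toAbsoluteValue ℂ)) (x := β) hA
  rw [nsmul_eq_mul, Fintype.card_fin] at this
  exact this

end Pool.Agent.H17B
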